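import Mathlib
import Pool.Agent.H66.Scl

set_option autoImplicit false

/-- In `ℕ[X,Y,Z]` the product of subtractive closures can be smaller than the subtractive closure
of the product. -/
theorem Pool.Agent.Results.MP_05a6d5_al.ProductFails.result :
    ∃ I J A B : Ideal (MvPolynomial (Fin 3) ℕ),
      (∀ h, h ∈ A ↔ ∃ i ∈ I, h + i ∈ I) ∧ (∀ h, h ∈ B ↔ ∃ j ∈ J, h + j ∈ J) ∧
      ∃ f, (∃ k ∈ I * J, f + k ∈ I * J) ∧ f ∉ A * B :=
  ⟨Pool.Agent.H66.Scl.I, Pool.Agent.H66.Scl.I, Pool.Agent.H66.Scl.scl _, Pool.Agent.H66.Scl.scl _,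
    fun _ => Iff.rfl, fun _ => Iff.rfl, _, Pool.Agent.H66.Scl.mem, Pool.Agent.H66.Scl.not_mem⟩
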